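import Mathlib
import Pool.Agent.H97.LTDefs
import Pool.Agent.H97.LTFinal
import Pool.Agent.H97.LTGraph

set_option autoImplicit false

/-!
The mean diameter of a uniformly random lattice tree with `n` vertices on the square or on the
triangular lattice is at most `C * n ^ (1 - 1 / 100000)`; in particular the growth exponent, if it
exists, is strictly smaller than `1`.
-/

namespace Pool.Agent.Results.MP_bd9902_pr.ExponentBelowOne

open Pool.Agent.H97.LTDefs Pool.Agent.H97.LTCore

lemma bound {G : SimpleGraph (ℤ × ℤ)} (hG : Lat G) {pos : ℤ × ℤ → EuclideanSpace ℝ (Fin 2)}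
    (hpos : ∀ a b, dist (pos a) (pos b) ≤ |(a.1 : ℝ) - b.1| + |(a.2 : ℝ) - b.2|) {n : ℕ}
    (hn : 1 ≤ n) :
    meanDiam G pos n ≤ 2 * Real.exp 30000 * (n : ℝ) ^ (1 - 1 / 100000 : ℝ) := by
  refine (meanDiam_le hG hpos hn).trans ?_
  have h1 := mean_width hG hn
  rcases (Nat.cast_nonneg (α := ℝ) (RT hG n).card).eq_or_lt with h0 | h0
  · rw [← h0, div_zero]; positivity
  · rw [div_le_iff₀ h0]
    linarith

/-- For the square and for the triangular lattice there is a constant `C` such that the expected
diameter of a uniformly random lattice tree with `n` vertices is at most `C n ^ (1 - 1/100000)`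
for every `n ≥ 1`. -/
theorem result :
    ∃ C : ℝ, ∀ n : ℕ, 1 ≤ n →
      meanDiam square squarePos n ≤ C * (n : ℝ) ^ (1 - 1 / 100000 : ℝ) ∧
      meanDiam triangular triangularPos n ≤ C * (n : ℝ) ^ (1 - 1 / 100000 : ℝ) :=
  ⟨2 * Real.exp 30000, fun _ hn =>
    ⟨bound lat_square squarePos_dist hn, bound lat_triangular triangularPos_dist hn⟩⟩

end Pool.Agent.Results.MP_bd9902_pr.ExponentBelowOne
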