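import Mathlib
import Pool.Agent.H97.LTDefs
import Pool.Agent.H97.LTTail2

set_option autoImplicit false

/-!
Linear size of the diameter of a random lattice tree is exponentially unlikely.
-/

namespace Pool.Agent.Results.MP_bd9902_pr.ExponentialTail

open Pool.Agent.H97.LTDefs Pool.Agent.H97.LTCore

/-- For the square and for the triangular lattice and every `ε > 0` there is `δ > 0` such that for
all large `n` the diameter of a uniformly random lattice tree with `n` vertices is at least `ε n`
with probability at most `exp (-δ n)`. -/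
theorem result : ∀ ε : ℝ, 0 < ε → ∃ δ : ℝ, 0 < δ ∧ ∃ N : ℕ, ∀ n ≥ N,
    probDiam square squarePos n (ε * n) ≤ Real.exp (-(δ * n)) ∧
    probDiam triangular triangularPos n (ε * n) ≤ Real.exp (-(δ * n)) := by
  intro ε hε
  obtain ⟨δ₁, hδ₁, N₁, h₁⟩ := tail_diam lat_square squarePos_dist hε
  obtain ⟨δ₂, hδ₂, N₂, h₂⟩ := tail_diam lat_triangular triangularPos_dist hε
  refine ⟨min δ₁ δ₂, lt_min hδ₁ hδ₂, max N₁ N₂, fun n hn => ⟨?_, ?_⟩⟩
  · refine (h₁ n ((le_max_left _ _).trans hn)).trans (Real.exp_le_exp.mpr ?_)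
    have := mul_le_mul_of_nonneg_right (min_le_left δ₁ δ₂) (Nat.cast_nonneg (α := ℝ) n)
    linarith
  · refine (h₂ n ((le_max_right _ _).trans hn)).trans (Real.exp_le_exp.mpr ?_)
    have := mul_le_mul_of_nonneg_right (min_le_right δ₁ δ₂) (Nat.cast_nonneg (α := ℝ) n)
    linarith

end Pool.Agent.Results.MP_bd9902_pr.ExponentialTail
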